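import Mathlib
import Pool.Agent.H181.CgE

/-!
# MP_815355_co, Q1 and Q2: yes

`(Φ_F, ≼)`, for `F` the class of finite cographs, contains an infinite antichain.
-/

open MeasureTheory Set

namespace Pool.Agent.Results.MP_815355_co.InfiniteAntichain

open Pool.Agent.H181.CG

/-- `H` is a cograph. -/
def IsCograph {n : ℕ} (H : SimpleGraph (Fin n)) : Prop := IsCographOn H Finset.univ

/-- `H ∈ Q(φ)` for the limit `φ` of `W`. -/
def InQ (W : Graphon) {n : ℕ} (H : SimpleGraph (Fin n)) : Prop := 0 < density W H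

/-- `H ∈ P(φ)` for the limit `φ` of `W`: `H` has positive density in every sub-object `W'|_f`,
where `W'` is any graphon representing `φ` and `f` any admissible weight. -/
def InP (W : Graphon) {n : ℕ} (H : SimpleGraph (Fin n)) : Prop :=
  ∀ W' : Graphon, WeakIso W' W → ∀ f, Admissible f → 0 < subDensity W' f H

/-- The limit of `W` lies in `Φ_F`: `P(φ) = Q(φ) = F`. -/
def InPhi (W : Graphon) : Prop :=
  ∀ (n : ℕ) (H : SimpleGraph (Fin n)), (InP W H ↔ IsCograph H) ∧ (InQ W H ↔ IsCograph H)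

lemma admissible_one : Admissible (fun _ : unitInterval => (1 : ℝ)) := by
  refine ⟨measurable_const, fun _ => ⟨zero_le_one, le_rfl⟩, ?_⟩
  simp

lemma subDensity_one (W : Graphon) {n : ℕ} (H : SimpleGraph (Fin n)) :
    subDensity W (fun _ => 1) H = density W H := by
  unfold subDensity density
  simp

lemma inPhi_blowup {G : ℕ → Prop} (hG1 : ∀ T, ∃ i, T ≤ i ∧ G i) (hG0 : ∀ T, ∃ i, T ≤ i ∧ ¬ G i) :
    InPhi (blowup G) := by
  intro n H
  have h1 : IsCograph H → InP (blowup G) H := fun hH W' hW' f hf => sub_pos hG1 hG0 hH hW' hf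
  have h2 : InP (blowup G) H → InQ (blowup G) H := fun h => by
    have := h (blowup G) (fun _ _ => rfl) _ admissible_one
    rwa [subDensity_one] at this
  have h3 : InQ (blowup G) H → IsCograph H := fun h => cograph_of_density_pos h
  exact ⟨⟨fun h => h3 (h2 h), h1⟩, ⟨h3, fun h => h2 (h1 h)⟩⟩

lemma GG_often (k T : ℕ) : ∃ i, T ≤ i ∧ GG k i := by
  set s := Nat.pair k T with hs
  have h1 : T ≤ s := Nat.right_le_pair k T
  refine ⟨TT s, h1.trans (TT_strictMono.le_apply), ?_⟩
  rw [GG_iff (s := s) le_rfl (TT_lt s), hs, Nat.unpair_pair]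

lemma not_GG_often (k T : ℕ) : ∃ i, T ≤ i ∧ ¬ GG k i := by
  set s := Nat.pair (k + 1) T with hs
  have h1 : T ≤ s := Nat.right_le_pair (k + 1) T
  refine ⟨TT s, h1.trans (TT_strictMono.le_apply), ?_⟩
  rw [GG_iff (s := s) le_rfl (TT_lt s), hs, Nat.unpair_pair]
  simp

theorem result : ∃ W : ℕ → Graphon, (∀ k, InPhi (W k)) ∧ ∀ k l, k ≠ l → ¬ SubObj (W k) (W l) :=
  ⟨fun k => blowup (GG k), fun k => inPhi_blowup (GG_often k) (not_GG_often k),
    fun _ _ h => not_subObj h⟩

end Pool.Agent.Results.MP_815355_co.InfiniteAntichain
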